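import Mathlib

set_option autoImplicit false

open scoped Topology

namespace Pool.Agent.Results.MP_ff84c4_al.CountableCounterexample

/-- The Markov topology of a group: the intersection of all Hausdorff group topologies.
(In the lattice of topologies used by Mathlib, the open sets of `sSup T` are the sets that are
open for every member of `T`.) -/
@[reducible]
def markovTopology (G : Type) [Group G] : TopologicalSpace G :=
  sSup {t : TopologicalSpace G | @T2Space G t ∧ @IsTopologicalGroup G t _}

/-- The centralizer topology of a group: the topology generated by the sets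
`{x | x * b * x⁻¹ = a * b * a⁻¹}`. -/
@[reducible]
def centralizerTopology (G : Type) [Group G] : TopologicalSpace G :=
  TopologicalSpace.generateFrom
    {U : Set G | ∃ a b : G, U = {x : G | x * b * x⁻¹ = a * b * a⁻¹}}

/-- `G` has finite double centralizers if the double centralizer of every finite set is finite. -/
def FiniteDoubleCentralizers (G : Type) [Group G] : Prop :=
  ∀ F : Set G, F.Finite →
    ((Subgroup.centralizer ((Subgroup.centralizer F : Subgroup G) : Set G) : Subgroup G) :
      Set G).Finite

/-- The finite group `S₃ × S₃`. -/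
def W : Type := Equiv.Perm (Fin 3) × Equiv.Perm (Fin 3)

instance : Group W := inferInstanceAs (Group (Equiv.Perm (Fin 3) × Equiv.Perm (Fin 3)))
instance : Fintype W := inferInstanceAs (Fintype (Equiv.Perm (Fin 3) × Equiv.Perm (Fin 3)))
instance : DecidableEq W :=
  inferInstanceAs (DecidableEq (Equiv.Perm (Fin 3) × Equiv.Perm (Fin 3)))
instance : TopologicalSpace W := ⊥
instance : DiscreteTopology W := ⟨rfl⟩

/-- The product of the two sign homomorphisms. -/
def chi : W →* ℤˣ where
  toFun x := Equiv.Perm.sign x.1 * Equiv.Perm.sign x.2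
  map_one' := by
    show Equiv.Perm.sign (1 : Equiv.Perm (Fin 3)) * Equiv.Perm.sign (1 : Equiv.Perm (Fin 3)) = 1
    simp
  map_mul' x y := by
    show Equiv.Perm.sign (x.1 * y.1) * Equiv.Perm.sign (x.2 * y.2) = _
    rw [Equiv.Perm.sign_mul, Equiv.Perm.sign_mul, mul_mul_mul_comm]

/-- The element `(1, (0 1))`. -/
def tau : W := ((1 : Equiv.Perm (Fin 3)), Equiv.swap 0 1)

theorem fact1 : ∀ a : W, (∀ c : W, chi c = 1 → c * tau = tau * c → a * c = c * a) →
    a = 1 ∨ a = tau := by
  decide +kernel

theorem fact2 : ∀ a : W, (∀ f : W, chi f = 1 → a * f = f * a) → a = 1 := by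
  decide +kernel

theorem fact3 : ∃ f : W, chi f = 1 ∧ f * tau ≠ tau * f := by
  decide +kernel

theorem chi_tau : chi tau ≠ 1 := by decide +kernel

theorem tau_sq : tau * tau = 1 := by decide +kernel

/-- The group: sequences in `W` that are eventually `1` and lie in the kernel of `chi`, together
with the sequences that are eventually `tau` and have `chi` equal to `chi tau` everywhere. -/
def K : Subgroup (ℕ → W) where
  carrier := {g | ∃ e : W, (e = 1 ∨ e = tau) ∧ (∀ n, chi (g n) = chi e) ∧
    ∃ N, ∀ n, N ≤ n → g n = e}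
  one_mem' := ⟨1, Or.inl rfl, fun n => rfl, 0, fun n _ => rfl⟩
  mul_mem' := by
    rintro g h ⟨e, he, hg, N, hN⟩ ⟨e', he', hg', N', hN'⟩
    refine ⟨e * e', ?_, ?_, max N N', ?_⟩
    · rcases he with rfl | rfl <;> rcases he' with rfl | rfl <;> simp [tau_sq]
    · intro n
      simp [hg, hg']
    · intro n hn
      simp [hN n (le_trans (le_max_left _ _) hn), hN' n (le_trans (le_max_right _ _) hn)]
  inv_mem' := by
    rintro g ⟨e, he, hg, N, hN⟩
    refine ⟨e⁻¹, ?_, ?_, N, ?_⟩
    · rcases he with rfl | rfl
      · simp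
      · right
        exact inv_eq_of_mul_eq_one_left tau_sq
    · intro n
      simp [hg]
    · intro n hn
      simp [hN n hn]

theorem mem_K_iff (g : ℕ → W) : g ∈ K ↔ ∃ e : W, (e = 1 ∨ e = tau) ∧
    (∀ n, chi (g n) = chi e) ∧ ∃ N, ∀ n, N ≤ n → g n = e := Iff.rfl

/-- An element of the group supported at one coordinate. -/
def sng (n : ℕ) (f : W) (hf : chi f = 1) : K :=
  ⟨Function.update 1 n f, by
    rw [mem_K_iff]
    refine ⟨1, Or.inl rfl, ?_, n + 1, ?_⟩
    · intro k
      by_cases hk : k = n
      · subst hk; simp [hf]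
      · simp [Function.update_of_ne hk]
    · intro k hk
      have : k ≠ n := by omega
      simp [Function.update_of_ne this]⟩

theorem sng_apply_self (n : ℕ) (f : W) (hf : chi f = 1) : (sng n f hf : ℕ → W) n = f := by
  simp [sng]

theorem sng_apply_ne (n : ℕ) (f : W) (hf : chi f = 1) {k : ℕ} (hk : k ≠ n) :
    (sng n f hf : ℕ → W) k = 1 := by
  simp [sng, Function.update_of_ne hk]

/-- The constant sequence `tau`. -/
def T : K := ⟨fun _ => tau, by
  rw [mem_K_iff]
  exact ⟨tau, Or.inr rfl, fun _ => rfl, 0, fun _ _ => rfl⟩⟩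

theorem T_apply (n : ℕ) : (T : ℕ → W) n = tau := rfl

theorem center_trivial : Subgroup.center K = ⊥ := by
  rw [Subgroup.eq_bot_iff_forall]
  intro z hz
  rw [Subgroup.mem_center_iff] at hz
  apply Subtype.ext
  funext n
  apply fact2
  intro f hf
  have h := congrArg (fun x : K => (x : ℕ → W) n) (hz (sng n f hf))
  simp only [Subgroup.coe_mul, Pi.mul_apply, sng_apply_self] at h
  exact h.symm

theorem countable_K : Countable K := by
  have h0 : ∀ g : K, ∃ (N : ℕ) (e : W), ∀ n, N ≤ n → (g : ℕ → W) n = e := by
    intro g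
    obtain ⟨e, -, -, N, hN⟩ := (mem_K_iff _).mp g.2
    exact ⟨N, e, hN⟩
  choose b e hb using h0
  have hinj : Function.Injective (fun g : K =>
      (⟨b g, fun i : Fin (b g) => (g : ℕ → W) i, e g⟩ : Σ N : ℕ, (Fin N → W) × W)) := by
    intro g h hgh
    have hg := hb g
    have hh := hb h
    simp only [Sigma.mk.injEq] at hgh
    obtain ⟨h1, h2⟩ := hgh
    revert h2 hg
    rw [h1]
    intro hg h2
    have h2 := eq_of_heq h2
    rw [Prod.mk.injEq] at h2
    obtain ⟨h3, h4⟩ := h2
    apply Subtype.ext
    funext n
    by_cases hn : n < b h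
    · exact congrFun h3 ⟨n, hn⟩
    · rw [hg n (not_lt.mp hn), hh n (not_lt.mp hn), h4]
  exact hinj.countable

theorem fdc : FiniteDoubleCentralizers K := by
  intro F hF
  -- a bound beyond which all elements of F are constant, equal to 1 or tau
  have hN : ∃ N : ℕ, ∀ g ∈ F, ∀ n, N ≤ n → (g : ℕ → W) n = 1 ∨ (g : ℕ → W) n = tau := by
    have : ∀ g : K, ∃ N : ℕ, ∀ n, N ≤ n → (g : ℕ → W) n = 1 ∨ (g : ℕ → W) n = tau := by
      intro g
      obtain ⟨e, he, -, N, hN⟩ := (mem_K_iff _).mp g.2
      refine ⟨N, fun n hn => ?_⟩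
      rw [hN n hn]
      exact he
    choose b hb using this
    obtain ⟨N, hN⟩ := (hF.image b).bddAbove
    refine ⟨N, fun g hg n hn => hb g n ?_⟩
    exact le_trans (hN (Set.mem_image_of_mem b hg)) hn
  obtain ⟨N, hN⟩ := hN
  -- elements of the double centralizer have coordinates in {1, tau} beyond N
  have key : ∀ h ∈ (Subgroup.centralizer ((Subgroup.centralizer F : Subgroup K) : Set K)),
      ∀ n, N ≤ n → (h : ℕ → W) n = 1 ∨ (h : ℕ → W) n = tau := by
    intro h hh n hn
    apply fact1
    intro c hc hct
    have hmem : sng n c hc ∈ Subgroup.centralizer F := by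
      rw [Subgroup.mem_centralizer_iff]
      intro g hg
      apply Subtype.ext
      funext k
      simp only [Subgroup.coe_mul, Pi.mul_apply]
      by_cases hk : k = n
      · subst hk
        rw [sng_apply_self]
        rcases hN g hg k hn with h1 | h1 <;> rw [h1]
        · simp
        · exact hct.symm
      · rw [sng_apply_ne _ _ _ hk]
        simp
    rw [Subgroup.mem_centralizer_iff] at hh
    have h2 := congrArg (fun x : K => (x : ℕ → W) n) (hh _ hmem)
    simp only [Subgroup.coe_mul, Pi.mul_apply, sng_apply_self] at h2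
    exact h2.symm
  -- such an element is determined by its first N + 1 coordinates
  have hinj : Set.InjOn (fun h : K => fun i : Fin (N + 1) => (h : ℕ → W) i)
      ((Subgroup.centralizer ((Subgroup.centralizer F : Subgroup K) : Set K) : Subgroup K) :
        Set K) := by
    intro g hg h hh hgh
    apply Subtype.ext
    funext n
    have hlast : (g : ℕ → W) N = (h : ℕ → W) N := congrFun hgh ⟨N, Nat.lt_succ_self N⟩
    by_cases hn : n < N + 1
    · exact congrFun hgh ⟨n, hn⟩
    · have hn' : N ≤ n := by omega
      obtain ⟨e, -, he, -⟩ := (mem_K_iff _).mp g.2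
      obtain ⟨e', -, he', -⟩ := (mem_K_iff _).mp h.2
      have hee : chi e = chi e' := by
        rw [← he N, ← he' N, hlast]
      have h3 : chi ((g : ℕ → W) n) = chi ((h : ℕ → W) n) := by
        rw [he n, he' n, hee]
      rcases key g hg n hn' with h1 | h1 <;> rcases key h hh n hn' with h2 | h2
      · rw [h1, h2]
      · exfalso
        rw [h1, h2, map_one] at h3
        exact chi_tau h3.symm
      · exfalso
        rw [h1, h2, map_one] at h3
        exact chi_tau h3
      · rw [h1, h2]
  exact Set.Finite.of_finite_image (Set.toFinite _) hinj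

/-- The topology induced on `K` by the product topology. -/
theorem not_open_centralizer : ¬ IsOpen {x : K | x * T * x⁻¹ = 1 * T * 1⁻¹} := by
  intro hopen
  obtain ⟨f, hf, hft⟩ := fact3
  have hlim : Filter.Tendsto (fun n : ℕ => sng n f hf) Filter.atTop (nhds (1 : K)) := by
    rw [tendsto_subtype_rng, tendsto_pi_nhds]
    intro k
    refine tendsto_const_nhds.congr' ?_
    filter_upwards [Filter.eventually_gt_atTop k] with n hn
    rw [sng_apply_ne _ _ _ (ne_of_lt hn)]
    rfl
  have hmem : (1 : K) ∈ {x : K | x * T * x⁻¹ = 1 * T * 1⁻¹} := by simp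
  have hev := hlim.eventually (hopen.mem_nhds hmem)
  obtain ⟨n, hn⟩ := hev.exists
  have h1 : sng n f hf * T = T * sng n f hf := by
    have h2 : sng n f hf * T * (sng n f hf)⁻¹ = T := by simpa using hn
    exact mul_inv_eq_iff_eq_mul.mp h2
  have h2 := congrArg (fun x : K => (x : ℕ → W) n) h1
  simp only [Subgroup.coe_mul, Pi.mul_apply, sng_apply_self, T_apply] at h2
  exact hft h2

theorem result : ∃ (G : Type) (_ : Group G), Countable G ∧ Subgroup.center G = ⊥ ∧
    FiniteDoubleCentralizers G ∧ markovTopology G ≠ centralizerTopology G := by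
  refine ⟨K, inferInstance, countable_K, center_trivial, fdc, ?_⟩
  intro heq
  have h1 : IsOpen[centralizerTopology K] {x : K | x * T * x⁻¹ = 1 * T * 1⁻¹} :=
    TopologicalSpace.isOpen_generateFrom_of_mem ⟨1, T, rfl⟩
  rw [← heq, markovTopology, isOpen_sSup_iff] at h1
  exact not_open_centralizer
    (h1 (inferInstance : TopologicalSpace K) ⟨inferInstance, inferInstance⟩)

end Pool.Agent.Results.MP_ff84c4_al.CountableCounterexample
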